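import Pool.Agent.H86.FDA.S1

/-!
Board `fda`: row COI (coincidence lemma), and general tools for formulas: renaming,
substitution of terms, and closure properties of the semantic classes of predicates defined
by `Δ₀`-formulas and by arbitrary formulas.
-/

namespace Pool.FDA

open Function

theorem val_coi {K : Type} [PAM K] (t : Tm) {e e' : ℕ → K} (h : ∀ n ∈ t.vars, e n = e' n) :
    t.val e = t.val e' := by
  induction t with
  | var n => exact h n (by simp [Tm.vars])
  | zero => rfl
  | one => rfl
  | add s t hs ht =>
    simp only [Tm.val]
    rw [hs fun n hn => h n (by simp [Tm.vars, hn]), ht fun n hn => h n (by simp [Tm.vars, hn])]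
  | mul s t hs ht =>
    simp only [Tm.val]
    rw [hs fun n hn => h n (by simp [Tm.vars, hn]), ht fun n hn => h n (by simp [Tm.vars, hn])]

/-- Coincidence lemma (row COI). -/
theorem t_coi : COIStmt := by
  intro K _ φ
  induction φ with
  | eq s t =>
    intro e e' h
    simp only [Sat]
    rw [val_coi s fun n hn => h n (by simp [Fm.fv, hn]),
      val_coi t fun n hn => h n (by simp [Fm.fv, hn])]
  | lt s t =>
    intro e e' h
    simp only [Sat]
    rw [val_coi s fun n hn => h n (by simp [Fm.fv, hn]),
      val_coi t fun n hn => h n (by simp [Fm.fv, hn])]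
  | neg φ ih =>
    intro e e' h
    simp only [Sat]
    rw [ih e e' h]
  | and φ ψ ih1 ih2 =>
    intro e e' h
    simp only [Sat]
    rw [ih1 e e' fun n hn => h n (by simp [Fm.fv, hn]),
      ih2 e e' fun n hn => h n (by simp [Fm.fv, hn])]
  | ex m φ ih =>
    intro e e' h
    simp only [Sat]
    refine exists_congr fun x => ih _ _ fun n hn => ?_
    by_cases hnm : n = m
    · subst hnm; simp
    · rw [update_of_ne hnm, update_of_ne hnm]
      exact h n (by simp [Fm.fv, hn, hnm])

end Pool.FDA
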