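import Pool.Agent.H59.FDA.Syn

/-!
Board `fda`, row DGA: the set coded by two `Σ₁`-definable elements is `Σ₁`-definable.
-/

namespace Pool.FDA

open Function

/-- the parameters are renamed -/
theorem dga_tau {J J' : Type} [PAM J] [PAM J'] (i : J →+* J') (b₁ b₂ d : J') (f : ℕ → ℕ)
    (e : ℕ → J') (he : ∀ n, e n ∈ Set.range i ∪ {b₁, b₂, d}) :
    ∃ (τ : ℕ → ℕ) (a : ℕ → J), ∀ (G : ℕ → J') (n : ℕ), G (f n) = i (a n) → G 2 = b₁ →
      G 3 = b₂ → G 4 = d → G (τ n) = e n := by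
  have : ∀ n, ∃ (t : ℕ) (a : J), ∀ (G : ℕ → J'), G (f n) = i a → G 2 = b₁ →
      G 3 = b₂ → G 4 = d → G t = e n := by
    intro n
    rcases he n with ⟨a, ha⟩ | h
    · exact ⟨f n, a, fun G h _ _ _ => h.trans ha⟩
    · simp only [Set.mem_insert_iff, Set.mem_singleton_iff] at h
      rcases h with h | h | h
      · exact ⟨2, 0, fun G _ h2 _ _ => h2.trans h.symm⟩
      · exact ⟨3, 0, fun G _ _ h2 _ => h2.trans h.symm⟩
      · exact ⟨4, 0, fun G _ _ _ h2 => h2.trans h.symm⟩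
  choose τ a h using this
  exact ⟨τ, a, fun G n => h n G⟩

/-- the matrix of the `Σ₁`-formula -/
theorem dga_rd {φ₁ φ₂ : Fm} (h₁ : D0 φ₁) (h₂ : D0 φ₂) (τ₁ τ₂ : ℕ → ℕ) :
    RD (fun K _ e => ∃ v₁ ≤ e 0, ∃ z₁ ≤ e 0, ∃ v₂ ≤ e 0, ∃ z₂ ≤ e 0, ∃ w ≤ e 0, ∃ q ≤ e 0,
      Sat (update (update (fun n => e (τ₁ n)) 0 v₁) 1 z₁) φ₁ ∧
      Sat (update (update (fun n => e (τ₂ n)) 0 v₂) 1 z₂) φ₂ ∧
      w + w < 1 + (e 1 + 1) * v₂ ∧ v₁ = q * (1 + (e 1 + 1) * v₂) + (w + w)) := by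
  refine RD.bexle (P := fun K _ v₁ e => ∃ z₁ ≤ e 0, ∃ v₂ ≤ e 0, ∃ z₂ ≤ e 0, ∃ w ≤ e 0,
      ∃ q ≤ e 0, Sat (update (update (fun n => e (τ₁ n)) 0 v₁) 1 z₁) φ₁ ∧
      Sat (update (update (fun n => e (τ₂ n)) 0 v₂) 1 z₂) φ₂ ∧
      w + w < 1 + (e 1 + 1) * v₂ ∧ v₁ = q * (1 + (e 1 + 1) * v₂) + (w + w)) (RT.var 0) ?_
  refine RD.bexle (P := fun K _ z₁ e => ∃ v₂ ≤ e 1, ∃ z₂ ≤ e 1, ∃ w ≤ e 1,
      ∃ q ≤ e 1, Sat (update (update (fun n => e (τ₁ n + 1)) 0 (e 0)) 1 z₁) φ₁ ∧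
      Sat (update (update (fun n => e (τ₂ n + 1)) 0 v₂) 1 z₂) φ₂ ∧
      w + w < 1 + (e 2 + 1) * v₂ ∧ e 0 = q * (1 + (e 2 + 1) * v₂) + (w + w)) (RT.var 1) ?_
  refine RD.bexle (P := fun K _ v₂ e => ∃ z₂ ≤ e 2, ∃ w ≤ e 2,
      ∃ q ≤ e 2, Sat (update (update (fun n => e (τ₁ n + 1 + 1)) 0 (e 1)) 1 (e 0)) φ₁ ∧
      Sat (update (update (fun n => e (τ₂ n + 1 + 1)) 0 v₂) 1 z₂) φ₂ ∧
      w + w < 1 + (e 3 + 1) * v₂ ∧ e 1 = q * (1 + (e 3 + 1) * v₂) + (w + w)) (RT.var 2) ?_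
  refine RD.bexle (P := fun K _ z₂ e => ∃ w ≤ e 3,
      ∃ q ≤ e 3, Sat (update (update (fun n => e (τ₁ n + 1 + 1 + 1)) 0 (e 2)) 1 (e 1)) φ₁ ∧
      Sat (update (update (fun n => e (τ₂ n + 1 + 1 + 1)) 0 (e 0)) 1 z₂) φ₂ ∧
      w + w < 1 + (e 4 + 1) * (e 0) ∧ e 2 = q * (1 + (e 4 + 1) * (e 0)) + (w + w))
      (RT.var 3) ?_
  refine RD.bexle (P := fun K _ w e =>
      ∃ q ≤ e 4, Sat (update (update (fun n => e (τ₁ n + 1 + 1 + 1 + 1)) 0 (e 3)) 1 (e 2)) φ₁ ∧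
      Sat (update (update (fun n => e (τ₂ n + 1 + 1 + 1 + 1)) 0 (e 1)) 1 (e 0)) φ₂ ∧
      w + w < 1 + (e 5 + 1) * (e 1) ∧ e 3 = q * (1 + (e 5 + 1) * (e 1)) + (w + w))
      (RT.var 4) ?_
  refine RD.bexle (P := fun K _ q e =>
      Sat (update (update (fun n => e (τ₁ n + 1 + 1 + 1 + 1 + 1)) 0 (e 4)) 1 (e 3)) φ₁ ∧
      Sat (update (update (fun n => e (τ₂ n + 1 + 1 + 1 + 1 + 1)) 0 (e 2)) 1 (e 1)) φ₂ ∧
      e 0 + e 0 < 1 + (e 6 + 1) * (e 2) ∧ e 4 = q * (1 + (e 6 + 1) * (e 2)) + (e 0 + e 0))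
      (RT.var 5) ?_
  refine RD.and (RD.sat h₁ ?_) (RD.and (RD.sat h₂ ?_) (RD.and (RD.lt ?_ ?_) (RD.eq ?_ ?_)))
  · exact RA.upd (RA.upd (fun n => RT.var _) 0 (RT.var 5)) 1 (RT.var 4)
  · exact RA.upd (RA.upd (fun n => RT.var _) 0 (RT.var 3)) 1 (RT.var 2)
  · exact (RT.var 1).add (RT.var 1)
  · exact RT.one.add (((RT.var 7).add RT.one).mul (RT.var 3))
  · exact RT.var 5
  · exact ((RT.var 0).mul (RT.one.add (((RT.var 7).add RT.one).mul (RT.var 3)))).add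
      ((RT.var 1).add (RT.var 1))

/-- row DGA -/
theorem t_dga : DGAStmt := by
  classical
  intro J J' _ _ i b₁ b₂ d s₁ s₂ hs₁ hs₂
  obtain ⟨φ₁, h1, e₁, he₁, hv₁⟩ := hs₁
  obtain ⟨φ₂, h2, e₂, he₂, hv₂⟩ := hs₂
  obtain ⟨τ₁, a₁, ht₁⟩ := dga_tau i b₁ b₂ d (fun n => 2 * n + 6) e₁ he₁
  obtain ⟨τ₂, a₂, ht₂⟩ := dga_tau i b₁ b₂ d (fun n => 2 * n + 5) e₂ he₂
  obtain ⟨φ, hφ, hS⟩ := dga_rd h1 h2 τ₁ τ₂
  set N : ℕ := (φ₁.fv ∪ φ₂.fv).sup id with hN
  have hb : ∀ n ∈ φ₁.fv ∪ φ₂.fv, n ≤ N := fun n hn => by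
    have : id n ≤ (φ₁.fv ∪ φ₂.fv).sup id := Finset.le_sup hn
    simpa using this
  set E : ℕ → J := fun m => if m ≤ 2 * N + 6 then
    (if m % 2 = 0 then a₁ ((m - 6) / 2) else a₂ ((m - 5) / 2)) else 0 with hE
  refine ⟨φ, hφ, E, ?_, fun u => ?_⟩
  · refine (Set.finite_le_nat (2 * N + 6)).subset fun m hm => ?_
    simp only [Set.mem_setOf_eq] at hm ⊢
    by_contra hc
    apply hm
    simp only [hE]
    rw [if_neg hc]
  · set G : J' → ℕ → J' := fun z => update (update (update (update (update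
      (fun n => i (E n)) 0 z) 1 u) 2 b₁) 3 b₂) 4 d with hG
    have hG5 : ∀ z n, G z (n + 5) = i (E (n + 5)) := by
      intro z n
      simp only [hG]
      rw [update_of_ne (by omega), update_of_ne (by omega), update_of_ne (by omega),
        update_of_ne (by omega), update_of_ne (by omega)]
    have hG0 : ∀ z, G z 0 = z := by
      intro z
      simp only [hG]
      rw [update_of_ne (by omega), update_of_ne (by omega), update_of_ne (by omega),
        update_of_ne (by omega), update_self]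
    have hG1 : ∀ z, G z 1 = u := by
      intro z
      simp only [hG]
      rw [update_of_ne (by omega), update_of_ne (by omega), update_of_ne (by omega),
        update_self]
    have hG2 : ∀ z, G z 2 = b₁ := by
      intro z
      simp only [hG]
      rw [update_of_ne (by omega), update_of_ne (by omega), update_self]
    have hG3 : ∀ z, G z 3 = b₂ := by
      intro z
      simp only [hG]
      rw [update_of_ne (by omega), update_self]
    have hG4 : ∀ z, G z 4 = d := by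
      intro z
      simp only [hG]
      rw [update_self]
    have hE1 : ∀ n ∈ φ₁.fv, ∀ z, G z (τ₁ n) = e₁ n := by
      intro n hn z
      refine ht₁ (G z) n ?_ (hG2 z) (hG3 z) (hG4 z)
      have h6 : 2 * n + 6 = (2 * n + 1) + 5 := by ring
      have hn' := hb n (by simp [hn])
      simp only [h6, hG5]
      congr 1
      simp only [hE]
      rw [if_pos (by omega), if_pos (by omega)]
      congr 1
      omega
    have hE2 : ∀ n ∈ φ₂.fv, ∀ z, G z (τ₂ n) = e₂ n := by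
      intro n hn z
      refine ht₂ (G z) n ?_ (hG2 z) (hG3 z) (hG4 z)
      have hn' := hb n (by simp [hn])
      simp only [hG5]
      congr 1
      simp only [hE]
      rw [if_pos (by omega), if_neg (by omega)]
      congr 1
      omega
    have hc1 : ∀ z v z₁, Sat (update (update (fun n => G z (τ₁ n)) 0 v) 1 z₁) φ₁ ↔
        Sat (update (update e₁ 0 v) 1 z₁) φ₁ := by
      intro z v z₁
      refine t_coi J' φ₁ _ _ fun n hn => ?_
      by_cases n1 : n = 1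
      · subst n1; simp
      · rw [update_of_ne n1, update_of_ne n1]
        by_cases n0 : n = 0
        · subst n0; simp
        · rw [update_of_ne n0, update_of_ne n0]
          exact hE1 n hn z
    have hc2 : ∀ z v z₁, Sat (update (update (fun n => G z (τ₂ n)) 0 v) 1 z₁) φ₂ ↔
        Sat (update (update e₂ 0 v) 1 z₁) φ₂ := by
      intro z v z₁
      refine t_coi J' φ₂ _ _ fun n hn => ?_
      by_cases n1 : n = 1
      · subst n1; simp
      · rw [update_of_ne n1, update_of_ne n1]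
        by_cases n0 : n = 0
        · subst n0; simp
        · rw [update_of_ne n0, update_of_ne n0]
          exact hE2 n hn z
    change Ev s₁ s₂ u ↔ ∃ z, Sat (G z) φ
    simp only [hS, hc1, hc2, hG0, hG1]
    unfold Ev Beta
    constructor
    · rintro ⟨w, hw, q, hq⟩
      obtain ⟨z₁, hz₁⟩ := (hv₁ s₁).2 rfl
      obtain ⟨z₂, hz₂⟩ := (hv₂ s₂).2 rfl
      have p1 := PAM.zero_le' z₁
      have p2 := PAM.zero_le' z₂
      have p3 := PAM.zero_le' w
      have p4 := PAM.zero_le' q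
      have p5 := PAM.zero_le' s₁
      have p6 := PAM.zero_le' s₂
      refine ⟨z₁ + z₂ + w + q + s₁ + s₂, s₁, ?_, z₁, ?_, s₂, ?_, z₂, ?_, w, ?_, q, ?_,
        hz₁, hz₂, hw, hq⟩
      · exact le_add_of_le_of_nonneg (le_add_of_nonneg_left (by positivity)) p6
      · have : z₁ ≤ z₁ + z₂ + w + q + s₁ + s₂ := by
          simp only [add_assoc]
          exact le_add_of_nonneg_right (by positivity)
        exact this
      · exact le_add_of_nonneg_left (by positivity)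
      · have : z₂ ≤ z₂ + (z₁ + w + q + s₁ + s₂) := le_add_of_nonneg_right (by positivity)
        refine this.trans (le_of_eq (by ring))
      · have : w ≤ w + (z₁ + z₂ + q + s₁ + s₂) := le_add_of_nonneg_right (by positivity)
        refine this.trans (le_of_eq (by ring))
      · have : q ≤ q + (z₁ + z₂ + w + s₁ + s₂) := le_add_of_nonneg_right (by positivity)
        refine this.trans (le_of_eq (by ring))
    · rintro ⟨z, v₁, -, z₁, -, v₂, -, z₂, -, w, -, q, -, k1, k2, k3, k4⟩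
      have e1 := (hv₁ v₁).1 ⟨z₁, k1⟩
      have e2 := (hv₂ v₂).1 ⟨z₂, k2⟩
      subst e1 e2
      exact ⟨w, k3, q, k4⟩

end Pool.FDA
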