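import Pool.Agent.H59.FDA.Syn

/-!
Board `fda`, row NIS: `Σ₁`-formulas are equivalent to formulas with one existential quantifier
in front of a `Δ₀`-formula; failure of `IΣ₁` gives a definable cut.
-/

namespace Pool.FDA

open Function

/-- A `Σ₁`-formula is equivalent to one unbounded existential quantifier over a `Δ₀`-formula. -/
theorem sg1_cns {φ : Fm} (h : Sg 1 φ) :
    ∃ δ : Fm, D0 δ ∧ ∀ (K : Type) [PAM K] (e : ℕ → K), Sat e φ ↔ ∃ v, Sat (cns v e) δ := by
  suffices H : ∀ (b : Bool) (n : ℕ) (φ : Fm), SP b n φ → b = true → n = 1 →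
      ∃ δ : Fm, D0 δ ∧ ∀ (K : Type) [PAM K] (e : ℕ → K), Sat e φ ↔ ∃ v, Sat (cns v e) δ from
    H true 1 φ h rfl rfl
  intro b n φ h
  induction h with
  | base b h => intro _ h'; omega
  | up b h _ =>
    intro hb hn
    subst hb
    have hn' := Nat.succ_injective hn
    subst hn'
    cases h with
    | base _ h =>
      refine ⟨_, h.ren Nat.succ_injective, fun K _ e => ?_⟩
      simp only [sat_ren Nat.succ_injective]
      constructor
      · intro h
        exact ⟨0, h⟩
      · rintro ⟨_, h⟩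
        exact h
  | @ex n x φ _ ih =>
    intro hb hn
    obtain ⟨δ, hδ, h2⟩ := ih hb hn
    have h3 : RD (fun K _ e => ∃ a ≤ e 0, ∃ v ≤ e 0,
        Sat (cns v (update (fun n => e (n + 1)) x a)) δ) := by
      refine RD.bexle (P := fun K _ a e => ∃ v ≤ e 0,
        Sat (cns v (update (fun n => e (n + 1)) x a)) δ) (RT.var 0) ?_
      refine RD.bexle (P := fun K _ v e =>
        Sat (cns v (update (fun n => e (n + 1 + 1)) x (e 0))) δ) (RT.var 1) ?_
      refine RD.sat hδ ?_
      intro n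
      cases n with
      | zero => exact RT.var 0
      | succ n =>
        exact (RA.suc.sh.sh.upd x (RT.var 1)) n
    obtain ⟨ε, hε, h4⟩ := h3
    refine ⟨ε, hε, fun K _ e => ?_⟩
    simp only [h4, Sat, h2]
    constructor
    · rintro ⟨a, v, h⟩
      refine ⟨a + v, a, ?_, v, ?_, h⟩
      · exact le_add_of_nonneg_right (PAM.zero_le' v)
      · exact le_add_of_nonneg_left (PAM.zero_le' a)
    · rintro ⟨z, a, -, v, -, h⟩
      exact ⟨a, v, h⟩
  | all x _ _ => intro hb; exact absurd hb (by simp)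

/-- The same with a named variable, chosen outside a given finite set. -/
theorem sg1_named {φ : Fm} (h : Sg 1 φ) (F : Finset ℕ) :
    ∃ (δ : Fm) (y : ℕ), D0 δ ∧ y ∉ F ∧
      ∀ (K : Type) [PAM K] (e : ℕ → K), Sat e φ ↔ ∃ v, Sat (update e y v) δ := by
  classical
  obtain ⟨δ, hδ, h2⟩ := sg1_cns h
  set y : ℕ := (δ.fv ∪ F).sup id + 1 with hy
  have hb : ∀ n ∈ δ.fv ∪ F, n < y := fun n hn => by
    have : id n ≤ (δ.fv ∪ F).sup id := Finset.le_sup hn
    simp only [id] at this
    omega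
  obtain ⟨ψ, h3, h4⟩ := exists_subst δ (fun n => Nat.casesOn n (.var y) fun k => .var k)
  refine ⟨ψ, y, h3 hδ, fun hF => ?_, fun K _ e => ?_⟩
  · exact absurd (hb y (by simp [hF])) (lt_irrefl _)
  · rw [h2]
    refine exists_congr fun v => ?_
    rw [h4]
    refine t_coi K δ _ _ fun n hn => ?_
    cases n with
    | zero => simp [cns, Tm.val]
    | succ k =>
      have : k ≠ y := by have := hb _ (by simp [hn] : k + 1 ∈ δ.fv ∪ F); omega
      simp [cns, Tm.val, update_of_ne this]

/-- row NIS -/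
theorem t_nis : NISStmt := by
  intro K _ h
  unfold ISigma1 at h
  push Not at h
  obtain ⟨φ, hφ, x, e, h0, hs, u, hu⟩ := h
  obtain ⟨δ, y, hδ, hy, h2⟩ := sg1_named hφ {x}
  refine ⟨δ, x, y, hδ, fun h => hy (by simp [h]), e, u, ?_, ?_, ?_⟩
  · exact (h2 K _).1 h0
  · intro v hv
    exact (h2 K _).1 (hs v ((h2 K _).2 hv))
  · intro v hv
    exact hu ((h2 K _).2 ⟨v, hv⟩)

end Pool.FDA
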