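import Pool.Agent.H59.FDA.Coi

/-!
Board `fda`: general tools for formulas: renaming, substitution of terms, and closure
properties of the semantic classes of predicates defined by `Δ₀`-formulas (`RD`) and by
arbitrary formulas (`RF`).
-/

namespace Pool.FDA

open Function

/-! ### renaming -/

/-- renaming of the variables of a term -/
def Tm.ren (f : ℕ → ℕ) : Tm → Tm
  | .var n => .var (f n)
  | .zero => .zero
  | .one => .one
  | .add s t => .add (s.ren f) (t.ren f)
  | .mul s t => .mul (s.ren f) (t.ren f)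

/-- renaming of all (free and bound) variables of a formula -/
def Fm.ren (f : ℕ → ℕ) : Fm → Fm
  | .eq s t => .eq (s.ren f) (t.ren f)
  | .lt s t => .lt (s.ren f) (t.ren f)
  | .neg φ => .neg (φ.ren f)
  | .and φ ψ => .and (φ.ren f) (ψ.ren f)
  | .ex n φ => .ex (f n) (φ.ren f)

theorem val_ren {K : Type} [PAM K] (f : ℕ → ℕ) (e : ℕ → K) (t : Tm) :
    (t.ren f).val e = t.val (fun n => e (f n)) := by
  induction t with
  | var n => rfl
  | zero => rfl
  | one => rfl
  | add s t hs ht => simp only [Tm.ren, Tm.val, hs, ht]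
  | mul s t hs ht => simp only [Tm.ren, Tm.val, hs, ht]

theorem vars_ren (f : ℕ → ℕ) (t : Tm) : (t.ren f).vars = t.vars.image f := by
  induction t with
  | var n => simp [Tm.ren, Tm.vars]
  | zero => simp [Tm.ren, Tm.vars]
  | one => simp [Tm.ren, Tm.vars]
  | add s t hs ht => simp only [Tm.ren, Tm.vars, hs, ht, Finset.image_union]
  | mul s t hs ht => simp only [Tm.ren, Tm.vars, hs, ht, Finset.image_union]

theorem update_comp_ren {K : Type} {f : ℕ → ℕ} (hf : Injective f) (e : ℕ → K) (n : ℕ) (x : K) :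
    (fun k => update e (f n) x (f k)) = update (fun k => e (f k)) n x := by
  funext k
  by_cases h : k = n
  · subst h; simp
  · rw [update_of_ne h, update_of_ne fun h' => h (hf h')]

theorem sat_ren {K : Type} [PAM K] {f : ℕ → ℕ} (hf : Injective f) (φ : Fm) :
    ∀ e : ℕ → K, Sat e (φ.ren f) ↔ Sat (fun n => e (f n)) φ := by
  induction φ with
  | eq s t => intro e; simp only [Fm.ren, Sat, val_ren]
  | lt s t => intro e; simp only [Fm.ren, Sat, val_ren]
  | neg φ ih => intro e; simp only [Fm.ren, Sat, ih]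
  | and φ ψ ih1 ih2 => intro e; simp only [Fm.ren, Sat, ih1, ih2]
  | ex m φ ih =>
    intro e
    simp only [Fm.ren, Sat]
    refine exists_congr fun x => ?_
    rw [ih, update_comp_ren hf]

theorem D0.ren {f : ℕ → ℕ} (hf : Injective f) {φ : Fm} (h : D0 φ) : D0 (φ.ren f) := by
  induction h with
  | eq s t => exact .eq _ _
  | lt s t => exact .lt _ _
  | neg _ ih => exact .neg ih
  | and _ _ ih1 ih2 => exact .and ih1 ih2
  | bex n t hn _ ih =>
    refine .bex _ _ ?_ ih
    rw [vars_ren, Finset.mem_image]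
    rintro ⟨k, hk, hkn⟩
    exact hn (hf hkn ▸ hk)

/-! ### substitution of terms -/

/-- `∃ x_{n+M} ≤ t_n (x_{n+M} = t_n ∧ …)` for all `n` in the list -/
def wrapS (M : ℕ) (t : ℕ → Tm) : List ℕ → Fm → Fm
  | [], φ => φ
  | n :: l, φ => .ex (n + M) (.and (.lt (.var (n + M)) (.add (t n) .one))
      (.and (.eq (.var (n + M)) (t n)) (wrapS M t l φ)))

theorem d0_wrapS (M : ℕ) (t : ℕ → Tm) {φ : Fm} (hφ : D0 φ) :
    ∀ l : List ℕ, (∀ n ∈ l, ∀ m ∈ (t n).vars, m < M) → D0 (wrapS M t l φ) := by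
  intro l
  induction l with
  | nil => intro _; exact hφ
  | cons n l ih =>
    intro h
    refine .bex _ _ ?_ (.and (.eq _ _) (ih fun k hk => h k (List.mem_cons_of_mem _ hk)))
    simp only [Tm.vars, Finset.union_empty]
    intro hm
    have := h n (by simp) _ hm
    omega

theorem lt_add_one_of_eq {K : Type} [PAM K] {x y : K} (h : x = y) : x < y + 1 := by
  rw [h]
  exact lt_add_of_pos_right y one_pos

theorem sat_wrapS {K : Type} [PAM K] (M : ℕ) (t : ℕ → Tm) (φ : Fm) :
    ∀ l : List ℕ, (∀ n ∈ l, ∀ m ∈ (t n).vars, m < M) → ∀ e : ℕ → K,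
      (Sat e (wrapS M t l (φ.ren (· + M))) ↔
        Sat (fun k => if k ∈ l then (t k).val e else e (k + M)) φ) := by
  intro l
  induction l with
  | nil =>
    intro _ e
    simp only [wrapS, List.not_mem_nil, if_false]
    exact sat_ren (fun a b h => by simpa using h) φ e
  | cons n l ih =>
    intro h e
    have hv : ∀ k ∈ n :: l, ∀ x : K, (t k).val (update e (n + M) x) = (t k).val e := by
      intro k hk x
      refine val_coi _ fun m hm => update_of_ne ?_ _ _
      have := h k hk m hm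
      omega
    have key : ∀ x : K, x = (t n).val e →
        (fun k => if k ∈ l then (t k).val (update e (n + M) x) else update e (n + M) x (k + M)) =
        fun k => if k ∈ n :: l then (t k).val e else e (k + M) := by
      intro x hx
      funext k
      by_cases hkl : k ∈ l
      · rw [if_pos hkl, if_pos (List.mem_cons_of_mem _ hkl), hv k (List.mem_cons_of_mem _ hkl)]
      · rw [if_neg hkl]
        by_cases hkn : k = n
        · subst hkn
          rw [if_pos (by simp), update_self, hx]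
        · rw [if_neg (by simp [hkn, hkl]), update_of_ne (by omega)]
    simp only [wrapS, Sat, Tm.val, update_self]
    constructor
    · rintro ⟨x, -, hx, h3⟩
      rw [hv n (by simp)] at hx
      rw [ih (fun k hk => h k (List.mem_cons_of_mem _ hk)), key x hx] at h3
      exact h3
    · intro h3
      refine ⟨(t n).val e, ?_, ?_, ?_⟩
      · rw [hv n (by simp)]
        exact lt_add_one_of_eq rfl
      · rw [hv n (by simp)]
      · rw [ih (fun k hk => h k (List.mem_cons_of_mem _ hk)), key _ rfl]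
        exact h3

/-- Substitution of terms for the free variables. -/
theorem exists_subst (φ : Fm) (t : ℕ → Tm) : ∃ ψ : Fm, (D0 φ → D0 ψ) ∧
    ∀ (K : Type) [PAM K] (e : ℕ → K), Sat e ψ ↔ Sat (fun n => (t n).val e) φ := by
  classical
  set M : ℕ := (φ.fv.biUnion fun n => (t n).vars).sup id + 1 with hM
  have hb : ∀ n ∈ φ.fv.toList, ∀ m ∈ (t n).vars, m < M := by
    intro n hn m hm
    have h1 : m ∈ φ.fv.biUnion fun n => (t n).vars :=
      Finset.mem_biUnion.2 ⟨n, Finset.mem_toList.1 hn, hm⟩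
    have h2 : id m ≤ (φ.fv.biUnion fun n => (t n).vars).sup id := Finset.le_sup h1
    simp only [id] at h2
    omega
  refine ⟨wrapS M t φ.fv.toList (φ.ren (· + M)), fun h => ?_, fun K _ e => ?_⟩
  · exact d0_wrapS M t (h.ren fun a b h => by simpa using h) _ hb
  · rw [sat_wrapS M t φ _ hb e]
    refine t_coi K φ _ _ fun n hn => ?_
    rw [if_pos (Finset.mem_toList.2 hn)]

/-! ### iterated quantifiers -/

/-- iterated existential quantifiers -/
def Fm.exs : List ℕ → Fm → Fm
  | [], φ => φ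
  | n :: l, φ => .ex n (Fm.exs l φ)

theorem sat_exs {K : Type} [PAM K] (φ : Fm) : ∀ (l : List ℕ) (e : ℕ → K),
    Sat e (Fm.exs l φ) ↔ ∃ e' : ℕ → K, (∀ n, n ∉ l → e' n = e n) ∧ Sat e' φ := by
  intro l
  induction l with
  | nil =>
    intro e
    simp only [Fm.exs, List.not_mem_nil, not_false_eq_true, true_imp_iff]
    constructor
    · intro h; exact ⟨e, fun _ => rfl, h⟩
    · rintro ⟨e', h, h'⟩
      have : e' = e := funext h
      rwa [this] at h'
  | cons n l ih =>
    intro e
    simp only [Fm.exs, Sat, ih]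
    constructor
    · rintro ⟨x, e', h1, h2⟩
      refine ⟨e', fun k hk => ?_, h2⟩
      rw [List.mem_cons, not_or] at hk
      rw [h1 k hk.2, update_of_ne hk.1]
    · rintro ⟨e', h1, h2⟩
      refine ⟨e' n, e', fun k hk => ?_, h2⟩
      by_cases hkn : k = n
      · subst hkn; simp
      · rw [update_of_ne hkn]
        exact h1 k (by simp [hkn, hk])

theorem fv_exs (φ : Fm) : ∀ l : List ℕ, (Fm.exs l φ).fv = φ.fv \ l.toFinset := by
  intro l
  induction l with
  | nil => simp [Fm.exs]
  | cons n l ih =>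
    simp only [Fm.exs, Fm.fv, ih, List.toFinset_cons]
    ext k
    simp only [Finset.mem_erase, Finset.mem_sdiff, Finset.mem_insert]
    tauto

/-- Every formula which does not depend on the assignment is equivalent to a sentence. -/
theorem exists_closed (φ : Fm) : ∃ ψ : Fm, Closed ψ ∧
    ∀ (K : Type) [PAM K] (e : ℕ → K), (Sat e ψ ↔ ∃ e' : ℕ → K, Sat e' φ) := by
  refine ⟨Fm.exs φ.fv.toList φ, ?_, fun K _ e => ?_⟩
  · unfold Closed
    rw [fv_exs]
    simp
  · rw [sat_exs]
    constructor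
    · rintro ⟨e', -, h⟩; exact ⟨e', h⟩
    · rintro ⟨e', h⟩
      refine ⟨fun n => if n ∈ φ.fv then e' n else e n, fun n hn => ?_, ?_⟩
      · exact if_neg fun h' => hn (Finset.mem_toList.2 h')
      · refine (t_coi K φ _ _ fun n hn => ?_).1 h
        rw [if_pos hn]

/-! ### semantic classes -/

/-- put `z` in front of an assignment -/
def cns {K : Type} (z : K) (e : ℕ → K) : ℕ → K
  | 0 => z
  | n + 1 => e n

/-- a predicate of assignments, for all structures at once -/
abbrev Prd : Type 1 := ∀ (K : Type) [PAM K], (ℕ → K) → Prop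

/-- the predicate is given by a `Δ₀`-formula -/
def RD (P : ∀ (K : Type) [PAM K], (ℕ → K) → Prop) : Prop :=
  ∃ φ : Fm, D0 φ ∧ ∀ (K : Type) [PAM K] (e : ℕ → K), Sat e φ ↔ P K e

/-- the predicate is given by a formula -/
def RF (P : ∀ (K : Type) [PAM K], (ℕ → K) → Prop) : Prop :=
  ∃ φ : Fm, ∀ (K : Type) [PAM K] (e : ℕ → K), Sat e φ ↔ P K e

/-- the function is given by a term -/
def RT (t : ∀ (K : Type) [PAM K], (ℕ → K) → K) : Prop :=
  ∃ s : Tm, ∀ (K : Type) [PAM K] (e : ℕ → K), s.val e = t K e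

/-- a family of terms -/
def RA (p : ∀ (K : Type) [PAM K], (ℕ → K) → ℕ → K) : Prop :=
  ∀ n : ℕ, RT (fun K _ e => p K e n)

theorem RD.rf {P : ∀ (K : Type) [PAM K], (ℕ → K) → Prop} (h : RD P) : RF P :=
  let ⟨φ, _, h⟩ := h; ⟨φ, h⟩

/-! terms -/

theorem RT.var (n : ℕ) : RT (fun _ _ e => e n) := ⟨.var n, fun _ _ _ => rfl⟩

theorem RT.zero : RT (fun _ _ _ => 0) := ⟨.zero, fun _ _ _ => rfl⟩

theorem RT.one : RT (fun _ _ _ => 1) := ⟨.one, fun _ _ _ => rfl⟩

theorem RT.add {s t : ∀ (K : Type) [PAM K], (ℕ → K) → K} (hs : RT s) (ht : RT t) :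
    RT (fun K _ e => s K e + t K e) := by
  obtain ⟨s', hs⟩ := hs
  obtain ⟨t', ht⟩ := ht
  exact ⟨.add s' t', fun K _ e => by simp only [Tm.val, hs, ht]⟩

theorem RT.mul {s t : ∀ (K : Type) [PAM K], (ℕ → K) → K} (hs : RT s) (ht : RT t) :
    RT (fun K _ e => s K e * t K e) := by
  obtain ⟨s', hs⟩ := hs
  obtain ⟨t', ht⟩ := ht
  exact ⟨.mul s' t', fun K _ e => by simp only [Tm.val, hs, ht]⟩

/-- substitution into terms -/
theorem RT.comp {t : ∀ (K : Type) [PAM K], (ℕ → K) → K}
    {p : ∀ (K : Type) [PAM K], (ℕ → K) → ℕ → K} (ht : RT t) (hp : RA p) :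
    RT (fun K _ e => t K (p K e)) := by
  obtain ⟨t', ht⟩ := ht
  suffices h : ∀ t' : Tm, RT (fun K _ e => t'.val (p K e)) by
    obtain ⟨s, hs⟩ := h t'
    exact ⟨s, fun K _ e => (hs K e).trans (ht K _)⟩
  intro t'
  induction t' with
  | var n => exact hp n
  | zero => exact RT.zero
  | one => exact RT.one
  | add s t hs ht => exact hs.add ht
  | mul s t hs ht => exact hs.mul ht

/-- shift by one -/
theorem RA.suc : RA (fun _ _ e n => e (n + 1)) := fun n => RT.var (n + 1)

theorem RT.sh {t : ∀ (K : Type) [PAM K], (ℕ → K) → K} (ht : RT t) :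
    RT (fun K _ e => t K (fun n => e (n + 1))) := ht.comp RA.suc

theorem RA.id : RA (fun _ _ e => e) := fun n => RT.var n

theorem RA.comp {q p : ∀ (K : Type) [PAM K], (ℕ → K) → ℕ → K} (hq : RA q) (hp : RA p) :
    RA (fun K _ e => q K (p K e)) := fun n => (hq n).comp hp

theorem RA.sh {q : ∀ (K : Type) [PAM K], (ℕ → K) → ℕ → K} (hq : RA q) :
    RA (fun K _ e => q K (fun n => e (n + 1))) := hq.comp RA.suc

theorem RA.upd {q : ∀ (K : Type) [PAM K], (ℕ → K) → ℕ → K} (hq : RA q) (x : ℕ)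
    {t : ∀ (K : Type) [PAM K], (ℕ → K) → K} (ht : RT t) :
    RA (fun K _ e => update (q K e) x (t K e)) := by
  intro n
  by_cases hn : n = x
  · subst hn
    simp only [update_self]
    exact ht
  · simp only [update_of_ne hn]
    exact hq n

/-! `Δ₀`-predicates -/

theorem RD.congr {P Q : ∀ (K : Type) [PAM K], (ℕ → K) → Prop} (h : RD P)
    (hPQ : ∀ (K : Type) [PAM K] (e : ℕ → K), P K e ↔ Q K e) : RD Q := by
  obtain ⟨φ, h1, h2⟩ := h
  exact ⟨φ, h1, fun K _ e => (h2 K e).trans (hPQ K e)⟩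

theorem RF.congr {P Q : ∀ (K : Type) [PAM K], (ℕ → K) → Prop} (h : RF P)
    (hPQ : ∀ (K : Type) [PAM K] (e : ℕ → K), P K e ↔ Q K e) : RF Q := by
  obtain ⟨φ, h2⟩ := h
  exact ⟨φ, fun K _ e => (h2 K e).trans (hPQ K e)⟩

/-- substitution: a `Δ₀`-formula evaluated at terms -/
theorem RD.sat {φ : Fm} (hφ : D0 φ) {p : ∀ (K : Type) [PAM K], (ℕ → K) → ℕ → K} (hp : RA p) :
    RD (fun K _ e => Sat (p K e) φ) := by
  choose t ht using hp
  obtain ⟨ψ, h1, h2⟩ := exists_subst φ t
  refine ⟨ψ, h1 hφ, fun K _ e => ?_⟩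
  rw [h2]
  have : (fun n => (t n).val e) = p K e := funext fun n => ht n K e
  rw [this]

theorem RF.sat (φ : Fm) {p : ∀ (K : Type) [PAM K], (ℕ → K) → ℕ → K} (hp : RA p) :
    RF (fun K _ e => Sat (p K e) φ) := by
  choose t ht using hp
  obtain ⟨ψ, h1, h2⟩ := exists_subst φ t
  refine ⟨ψ, fun K _ e => ?_⟩
  rw [h2]
  have : (fun n => (t n).val e) = p K e := funext fun n => ht n K e
  rw [this]

theorem RD.comp {P : ∀ (K : Type) [PAM K], (ℕ → K) → Prop}
    {p : ∀ (K : Type) [PAM K], (ℕ → K) → ℕ → K} (hP : RD P) (hp : RA p) :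
    RD (fun K _ e => P K (p K e)) := by
  obtain ⟨φ, h1, h2⟩ := hP
  exact (RD.sat h1 hp).congr fun K _ e => h2 K _

theorem RF.comp {P : ∀ (K : Type) [PAM K], (ℕ → K) → Prop}
    {p : ∀ (K : Type) [PAM K], (ℕ → K) → ℕ → K} (hP : RF P) (hp : RA p) :
    RF (fun K _ e => P K (p K e)) := by
  obtain ⟨φ, h2⟩ := hP
  exact (RF.sat φ hp).congr fun K _ e => h2 K _

theorem RD.eq {s t : ∀ (K : Type) [PAM K], (ℕ → K) → K} (hs : RT s) (ht : RT t) :
    RD (fun K _ e => s K e = t K e) := by
  obtain ⟨s', hs⟩ := hs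
  obtain ⟨t', ht⟩ := ht
  exact ⟨.eq s' t', .eq _ _, fun K _ e => by simp only [Sat, hs, ht]⟩

theorem RD.lt {s t : ∀ (K : Type) [PAM K], (ℕ → K) → K} (hs : RT s) (ht : RT t) :
    RD (fun K _ e => s K e < t K e) := by
  obtain ⟨s', hs⟩ := hs
  obtain ⟨t', ht⟩ := ht
  exact ⟨.lt s' t', .lt _ _, fun K _ e => by simp only [Sat, hs, ht]⟩

theorem RD.not {P : ∀ (K : Type) [PAM K], (ℕ → K) → Prop} (h : RD P) :
    RD (fun K _ e => ¬ P K e) := by
  obtain ⟨φ, h1, h2⟩ := h
  exact ⟨.neg φ, .neg h1, fun K _ e => by simp only [Sat, h2]⟩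

theorem RD.and {P Q : ∀ (K : Type) [PAM K], (ℕ → K) → Prop} (h : RD P) (h' : RD Q) :
    RD (fun K _ e => P K e ∧ Q K e) := by
  obtain ⟨φ, h1, h2⟩ := h
  obtain ⟨ψ, h3, h4⟩ := h'
  exact ⟨.and φ ψ, .and h1 h3, fun K _ e => by simp only [Sat, h2, h4]⟩

theorem RD.le {s t : ∀ (K : Type) [PAM K], (ℕ → K) → K} (hs : RT s) (ht : RT t) :
    RD (fun K _ e => s K e ≤ t K e) :=
  (RD.lt ht hs).not.congr fun _ _ _ => not_lt

theorem RD.or {P Q : ∀ (K : Type) [PAM K], (ℕ → K) → Prop} (h : RD P) (h' : RD Q) :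
    RD (fun K _ e => P K e ∨ Q K e) :=
  (h.not.and h'.not).not.congr fun _ _ _ => by tauto

theorem RD.imp {P Q : ∀ (K : Type) [PAM K], (ℕ → K) → Prop} (h : RD P) (h' : RD Q) :
    RD (fun K _ e => P K e → Q K e) :=
  (h.and h'.not).not.congr fun _ _ _ => by tauto

theorem RD.iff {P Q : ∀ (K : Type) [PAM K], (ℕ → K) → Prop} (h : RD P) (h' : RD Q) :
    RD (fun K _ e => P K e ↔ Q K e) :=
  ((h.imp h').and (h'.imp h)).congr fun _ _ _ => by tauto

/-- bounded existential quantifier -/
theorem RD.bex {P : ∀ (K : Type) [PAM K], K → (ℕ → K) → Prop}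
    {t : ∀ (K : Type) [PAM K], (ℕ → K) → K} (ht : RT t)
    (h : RD (fun K _ e => P K (e 0) (fun n => e (n + 1)))) :
    RD (fun K _ e => ∃ z < t K e, P K z e) := by
  classical
  obtain ⟨φ, h1, h2⟩ := h
  obtain ⟨t', ht⟩ := ht
  set m : ℕ := (φ.fv ∪ t'.vars).sup id + 1 with hm
  have hm1 : ∀ n ∈ φ.fv, n < m := fun n hn => by
    have : id n ≤ (φ.fv ∪ t'.vars).sup id := Finset.le_sup (by simp [hn])
    simp only [id] at this
    omega
  have hm2 : ∀ n ∈ t'.vars, n < m := fun n hn => by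
    have : id n ≤ (φ.fv ∪ t'.vars).sup id := Finset.le_sup (by simp [hn])
    simp only [id] at this
    omega
  obtain ⟨ψ, h3, h4⟩ := exists_subst φ (fun n => Nat.casesOn n (.var m) fun k => .var k)
  refine ⟨.ex m (.and (.lt (.var m) t') ψ), .bex _ _ (fun h => ?_) (h3 h1), fun K _ e => ?_⟩
  · exact absurd (hm2 _ h) (lt_irrefl _)
  · simp only [Sat, Tm.val, update_self, h4]
    refine exists_congr fun z => ?_
    have e1 : t'.val (update e m z) = t K e := by
      rw [← ht]
      exact val_coi _ fun n hn => update_of_ne (hm2 n hn).ne _ _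
    have e2 : Sat (fun n => (Nat.casesOn n (Tm.var m) fun k => Tm.var k : Tm).val (update e m z)) φ
        ↔ P K z e := by
      have : Sat (cns z e) φ ↔ P K z e := h2 K (cns z e)
      rw [← this]
      refine t_coi K φ _ _ fun n hn => ?_
      cases n with
      | zero => simp [Tm.val, cns]
      | succ k =>
        have : k ≠ m := by have := hm1 _ hn; omega
        simp [Tm.val, cns, update_of_ne this]
    rw [e1, e2]

theorem RD.ball {P : ∀ (K : Type) [PAM K], K → (ℕ → K) → Prop}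
    {t : ∀ (K : Type) [PAM K], (ℕ → K) → K} (ht : RT t)
    (h : RD (fun K _ e => P K (e 0) (fun n => e (n + 1)))) :
    RD (fun K _ e => ∀ z < t K e, P K z e) :=
  (RD.bex (P := fun K _ z e => ¬ P K z e) ht h.not).not.congr fun K _ e => by
    constructor
    · intro hh z hz
      by_contra hc
      exact hh ⟨z, hz, hc⟩
    · rintro hh ⟨z, hz, hc⟩
      exact hc (hh z hz)

theorem lt_add_one_iff' {K : Type} [PAM K] {x y : K} : x < y + 1 ↔ x ≤ y := by
  constructor
  · intro h
    by_contra hc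
    rw [not_le] at hc
    obtain ⟨z, hz⟩ := PAM.sub' y x hc.le
    have h0 : 0 < z := by
      rcases eq_or_lt_of_le (PAM.zero_le' z) with h0 | h0
      · rw [← h0, add_zero] at hz
        exact absurd hz hc.ne
      · exact h0
    have h1 := PAM.disc' z h0
    have h2 : y + 1 ≤ y + z := add_le_add_right h1 y
    rw [hz] at h2
    exact absurd h h2.not_gt
  · intro h
    exact lt_of_le_of_lt h (lt_add_of_pos_right y one_pos)

theorem RD.bexle {P : ∀ (K : Type) [PAM K], K → (ℕ → K) → Prop}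
    {t : ∀ (K : Type) [PAM K], (ℕ → K) → K} (ht : RT t)
    (h : RD (fun K _ e => P K (e 0) (fun n => e (n + 1)))) :
    RD (fun K _ e => ∃ z ≤ t K e, P K z e) :=
  (RD.bex (ht.add RT.one) h).congr fun K _ e => by simp only [lt_add_one_iff']

theorem RD.ballle {P : ∀ (K : Type) [PAM K], K → (ℕ → K) → Prop}
    {t : ∀ (K : Type) [PAM K], (ℕ → K) → K} (ht : RT t)
    (h : RD (fun K _ e => P K (e 0) (fun n => e (n + 1)))) :
    RD (fun K _ e => ∀ z ≤ t K e, P K z e) :=
  (RD.ball (ht.add RT.one) h).congr fun K _ e => by simp only [lt_add_one_iff']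

/-! all predicates -/

theorem RF.not {P : ∀ (K : Type) [PAM K], (ℕ → K) → Prop} (h : RF P) :
    RF (fun K _ e => ¬ P K e) := by
  obtain ⟨φ, h2⟩ := h
  exact ⟨.neg φ, fun K _ e => by simp only [Sat, h2]⟩

theorem RF.and {P Q : ∀ (K : Type) [PAM K], (ℕ → K) → Prop} (h : RF P) (h' : RF Q) :
    RF (fun K _ e => P K e ∧ Q K e) := by
  obtain ⟨φ, h2⟩ := h
  obtain ⟨ψ, h4⟩ := h'
  exact ⟨.and φ ψ, fun K _ e => by simp only [Sat, h2, h4]⟩

theorem RF.or {P Q : ∀ (K : Type) [PAM K], (ℕ → K) → Prop} (h : RF P) (h' : RF Q) :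
    RF (fun K _ e => P K e ∨ Q K e) :=
  (h.not.and h'.not).not.congr fun _ _ _ => by tauto

theorem RF.imp {P Q : ∀ (K : Type) [PAM K], (ℕ → K) → Prop} (h : RF P) (h' : RF Q) :
    RF (fun K _ e => P K e → Q K e) :=
  (h.and h'.not).not.congr fun _ _ _ => by tauto

theorem RF.iff {P Q : ∀ (K : Type) [PAM K], (ℕ → K) → Prop} (h : RF P) (h' : RF Q) :
    RF (fun K _ e => P K e ↔ Q K e) :=
  ((h.imp h').and (h'.imp h)).congr fun _ _ _ => by tauto

/-- existential quantifier -/
theorem RF.ex {P : ∀ (K : Type) [PAM K], K → (ℕ → K) → Prop}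
    (h : RF (fun K _ e => P K (e 0) (fun n => e (n + 1)))) :
    RF (fun K _ e => ∃ z, P K z e) := by
  classical
  obtain ⟨φ, h2⟩ := h
  set m : ℕ := φ.fv.sup id + 1 with hm
  have hm1 : ∀ n ∈ φ.fv, n < m := fun n hn => by
    have : id n ≤ φ.fv.sup id := Finset.le_sup hn
    simp only [id] at this
    omega
  obtain ⟨ψ, -, h4⟩ := exists_subst φ (fun n => Nat.casesOn n (.var m) fun k => .var k)
  refine ⟨.ex m ψ, fun K _ e => ?_⟩
  simp only [Sat, h4]
  refine exists_congr fun z => ?_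
  have : Sat (cns z e) φ ↔ P K z e := h2 K (cns z e)
  rw [← this]
  refine t_coi K φ _ _ fun n hn => ?_
  cases n with
  | zero => simp [Tm.val, cns]
  | succ k =>
    have : k ≠ m := by have := hm1 _ hn; omega
    simp [Tm.val, cns, update_of_ne this]

theorem RF.all {P : ∀ (K : Type) [PAM K], K → (ℕ → K) → Prop}
    (h : RF (fun K _ e => P K (e 0) (fun n => e (n + 1)))) :
    RF (fun K _ e => ∀ z, P K z e) :=
  (RF.ex (P := fun K _ z e => ¬ P K z e) h.not).not.congr fun K _ e => by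
    constructor
    · intro hh z
      by_contra hc
      exact hh ⟨z, hc⟩
    · rintro hh ⟨z, hc⟩
      exact hc (hh z)

/-- Quantification over a whole assignment: the block `n ↦ e (2 n)`; the rest is
`n ↦ e (2 n + 1)`. -/
theorem RF.exb {P : ∀ (K : Type) [PAM K], (ℕ → K) → (ℕ → K) → Prop}
    (h : RF (fun K _ e => P K (fun n => e (2 * n)) (fun n => e (2 * n + 1)))) :
    RF (fun K _ e => ∃ p : ℕ → K, P K p e) := by
  classical
  obtain ⟨φ, h2⟩ := h
  set M : ℕ := φ.fv.sup id + 1 with hM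
  have hm1 : ∀ n ∈ φ.fv, n < M := fun n hn => by
    have : id n ≤ φ.fv.sup id := Finset.le_sup hn
    simp only [id] at this
    omega
  obtain ⟨ψ, -, h4⟩ := exists_subst φ
    (fun n => if n % 2 = 0 then .var (n / 2 + M) else .var (n / 2))
  refine ⟨Fm.exs ((List.range M).map (· + M)) ψ, fun K _ e => ?_⟩
  rw [sat_exs]
  have key : ∀ (e' : ℕ → K), (∀ n, n ∉ (List.range M).map (· + M) → e' n = e n) →
      (Sat e' ψ ↔ P K (fun n => e' (n + M)) e) := by
    intro e' he'
    rw [h4]
    have h5 : Sat (fun n => if n % 2 = 0 then e' (n / 2 + M) else e (n / 2)) φ ↔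
        P K (fun n => (fun n => if n % 2 = 0 then e' (n / 2 + M) else e (n / 2)) (2 * n))
        (fun n => (fun n => if n % 2 = 0 then e' (n / 2 + M) else e (n / 2)) (2 * n + 1)) :=
      h2 K (fun n => if n % 2 = 0 then e' (n / 2 + M) else e (n / 2))
    have e3 : (fun n => (fun n => if n % 2 = 0 then e' (n / 2 + M) else e (n / 2)) (2 * n)) =
        fun n => e' (n + M) := by
      funext n
      have h6 : (2 * n) % 2 = 0 := by omega
      have h7 : (2 * n) / 2 = n := by omega
      simp only [h6, h7, if_true]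
    have e4 : (fun n => (fun n => if n % 2 = 0 then e' (n / 2 + M) else e (n / 2)) (2 * n + 1)) =
        e := by
      funext n
      have h6 : ¬ ((2 * n + 1) % 2 = 0) := by omega
      have h7 : (2 * n + 1) / 2 = n := by omega
      simp only [h7]
      rw [if_neg h6]
    rw [e3, e4] at h5
    rw [← h5]
    refine t_coi K φ _ _ fun n hn => ?_
    by_cases h6 : n % 2 = 0
    · simp [h6, Tm.val]
    · simp only [h6, if_false, Tm.val]
      refine he' _ fun hmem => ?_
      rw [List.mem_map] at hmem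
      obtain ⟨k, -, hk⟩ := hmem
      have := hm1 n hn
      omega
  constructor
  · rintro ⟨e', h5, h6⟩
    exact ⟨_, (key e' h5).1 h6⟩
  · rintro ⟨p, hp⟩
    refine ⟨fun n => if M ≤ n ∧ n < M + M then p (n - M) else e n, fun n hn => ?_, ?_⟩
    · refine if_neg ?_
      rintro ⟨h5, h6⟩
      apply hn
      rw [List.mem_map]
      exact ⟨n - M, List.mem_range.2 (by omega), by omega⟩
    · rw [h4]
      have h5 : Sat (fun n => if n % 2 = 0 then p (n / 2) else e (n / 2)) φ ↔
          P K (fun n => (fun n => if n % 2 = 0 then p (n / 2) else e (n / 2)) (2 * n))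
          (fun n => (fun n => if n % 2 = 0 then p (n / 2) else e (n / 2)) (2 * n + 1)) :=
        h2 K (fun n => if n % 2 = 0 then p (n / 2) else e (n / 2))
      have e3 : (fun n => (fun n => if n % 2 = 0 then p (n / 2) else e (n / 2)) (2 * n)) =
          p := by
        funext n
        have h6 : (2 * n) % 2 = 0 := by omega
        have h7 : (2 * n) / 2 = n := by omega
        simp only [h6, h7, if_true]
      have e4 : (fun n => (fun n => if n % 2 = 0 then p (n / 2) else e (n / 2)) (2 * n + 1)) =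
          e := by
        funext n
        have h6 : ¬ ((2 * n + 1) % 2 = 0) := by omega
        have h7 : (2 * n + 1) / 2 = n := by omega
        simp only [h7]
        rw [if_neg h6]
      rw [e3, e4] at h5
      rw [← h5] at hp
      refine (t_coi K φ _ _ fun n hn => ?_).1 hp
      have := hm1 n hn
      by_cases h6 : n % 2 = 0
      · have h7 : M ≤ n / 2 + M ∧ n / 2 + M < M + M := by omega
        have h8 : n / 2 + M - M = n / 2 := by omega
        simp [h6, Tm.val, h7, h8]
      · have h7 : ¬ (M ≤ n / 2 ∧ n / 2 < M + M) := by omega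
        simp only [h6, if_false, Tm.val, h7]

theorem RF.allb {P : ∀ (K : Type) [PAM K], (ℕ → K) → (ℕ → K) → Prop}
    (h : RF (fun K _ e => P K (fun n => e (2 * n)) (fun n => e (2 * n + 1)))) :
    RF (fun K _ e => ∀ p : ℕ → K, P K p e) :=
  (RF.exb (P := fun K _ p e => ¬ P K p e) h.not).not.congr fun K _ e => by
    constructor
    · intro hh z
      by_contra hc
      exact hh ⟨z, hc⟩
    · rintro hh ⟨z, hc⟩
      exact hc (hh z)

end Pool.FDA
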