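import Pool.Agent.H59.FDA.Syn

/-!
Board `fda`, row XIF: `Xi` is expressed by a sentence.
-/

namespace Pool.FDA

open Function

section

variable {b₁ b₂ i v a b d j : ∀ (K : Type) [PAM K], (ℕ → K) → K}
  {p : ∀ (K : Type) [PAM K], (ℕ → K) → ℕ → K}

/-- the modulus -/
theorem rt_modulus (h₂ : RT b₂) (hi : RT i) : RT (fun K _ e => 1 + (i K e + 1) * b₂ K e) :=
  RT.one.add ((hi.add RT.one).mul h₂)

theorem rt_pr (ha : RT a) (hb : RT b) : RT (fun K _ e => pr (a K e) (b K e)) :=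
  ((ha.add hb).mul (ha.add hb)).add ha

theorem rf_beta (h₁ : RT b₁) (h₂ : RT b₂) (hi : RT i) (hv : RT v) :
    RF (fun K _ e => Beta (b₁ K e) (b₂ K e) (i K e) (v K e)) := by
  unfold Beta
  refine (RD.lt hv (rt_modulus h₂ hi)).rf.and ?_
  refine RF.ex (P := fun K _ q e => b₁ K e = q * (1 + (i K e + 1) * b₂ K e) + v K e) ?_
  exact (RD.eq h₁.sh (((RT.var 0).mul (rt_modulus h₂.sh hi.sh)).add hv.sh)).rf

theorem rf_ev (h₁ : RT b₁) (h₂ : RT b₂) (hi : RT i) :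
    RF (fun K _ e => Ev (b₁ K e) (b₂ K e) (i K e)) := by
  unfold Ev
  refine RF.ex (P := fun K _ w e => Beta (b₁ K e) (b₂ K e) (i K e) (w + w)) ?_
  exact rf_beta h₁.sh h₂.sh hi.sh ((RT.var 0).add (RT.var 0))

theorem rf_inL (ε : Fm) (x y : ℕ) (hp : RA p) (hv : RT v) :
    RF (fun K _ e => InL ε x y (p K e) (v K e)) := by
  unfold InL
  refine RF.ex (P := fun K _ z e => ∀ x' ≤ v K e, ∃ y' ≤ z,
    Sat (update (update (p K e) x x') y y') ε) ?_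
  refine RF.all (P := fun K _ x' e => x' ≤ v K (fun n => e (n + 1)) → ∃ y' ≤ e 0,
    Sat (update (update (p K (fun n => e (n + 1))) x x') y y') ε) ?_
  refine RF.imp (RD.le (RT.var 0) hv.sh.sh).rf ?_
  refine RF.ex (P := fun K _ y' e => y' ≤ e 1 ∧
    Sat (update (update (p K (fun n => e (n + 1 + 1))) x (e 0)) y y') ε) ?_
  refine RF.and (RD.le (RT.var 0) (RT.var 2)).rf ?_
  exact RF.sat ε (((hp.sh.sh.sh).upd x (RT.var 1)).upd y (RT.var 0))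

theorem rf_inN (ε : Fm) (x y : ℕ) (hp : RA p) (h₁ : RT b₁) (h₂ : RT b₂) (hd : RT d)
    (hi : RT i) :
    RF (fun K _ e => InN ε x y (p K e) (b₁ K e) (b₂ K e) (d K e) (i K e)) := by
  unfold InN
  refine RF.and (RD.le hi hd).rf ?_
  refine RF.ex (P := fun K _ v e => Beta (b₁ K e) (b₂ K e) (i K e) v ∧ InL ε x y (p K e) v) ?_
  exact RF.and (rf_beta h₁.sh h₂.sh hi.sh (RT.var 0)) (rf_inL ε x y hp.sh (RT.var 0))

theorem rf_good (ε : Fm) (x y : ℕ) (hp : RA p) (h₁ : RT b₁) (h₂ : RT b₂) (hd : RT d) :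
    RF (fun K _ e => Good ε x y (p K e) (b₁ K e) (b₂ K e) (d K e)) := by
  unfold Good
  refine RF.and (rf_inN ε x y hp h₁ h₂ hd RT.zero) ?_
  refine RF.all (P := fun K _ i e => InN ε x y (p K e) (b₁ K e) (b₂ K e) (d K e) i →
    InN ε x y (p K e) (b₁ K e) (b₂ K e) (d K e) (i + 1)) ?_
  exact RF.imp (rf_inN ε x y hp.sh h₁.sh h₂.sh hd.sh (RT.var 0))
    (rf_inN ε x y hp.sh h₁.sh h₂.sh hd.sh ((RT.var 0).add RT.one))

theorem RA.ev : RA (fun _ _ e n => e (2 * n)) := fun n => RT.var (2 * n)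

theorem RA.od : RA (fun _ _ e n => e (2 * n + 1)) := fun n => RT.var (2 * n + 1)

theorem rf_mini (ε : Fm) (x y : ℕ) (hp : RA p) (h₁ : RT b₁) (h₂ : RT b₂) (hd : RT d) :
    RF (fun K _ e => Mini ε x y (p K e) (b₁ K e) (b₂ K e) (d K e)) := by
  unfold Mini
  refine RF.all (P := fun K _ i e => InN ε x y (p K e) (b₁ K e) (b₂ K e) (d K e) i →
    ∀ (p' : ℕ → K) (b₁' b₂' d' : K), Good ε x y p' b₁' b₂' d' →
      InN ε x y p' b₁' b₂' d' i) ?_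
  refine RF.imp (rf_inN ε x y hp.sh h₁.sh h₂.sh hd.sh (RT.var 0)) ?_
  refine RF.allb (P := fun K _ p' e => ∀ (b₁' b₂' d' : K), Good ε x y p' b₁' b₂' d' →
      InN ε x y p' b₁' b₂' d' (e 0)) ?_
  refine RF.all (P := fun K _ b₁' e => ∀ (b₂' d' : K),
    Good ε x y (fun n => e (2 * n)) b₁' b₂' d' →
      InN ε x y (fun n => e (2 * n)) b₁' b₂' d' (e (2 * 0 + 1))) ?_
  refine RF.all (P := fun K _ b₂' e => ∀ (d' : K),
    Good ε x y (fun n => e (2 * n + 1)) (e 0) b₂' d' →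
      InN ε x y (fun n => e (2 * n + 1)) (e 0) b₂' d' (e (2 * 0 + 1 + 1))) ?_
  refine RF.all (P := fun K _ d' e =>
    Good ε x y (fun n => e (2 * n + 1 + 1)) (e 1) (e 0) d' →
      InN ε x y (fun n => e (2 * n + 1 + 1)) (e 1) (e 0) d' (e (2 * 0 + 1 + 1 + 1))) ?_
  exact RF.imp (rf_good ε x y (fun n => RT.var (2 * n + 1 + 1 + 1)) (RT.var 2) (RT.var 1)
    (RT.var 0)) (rf_inN ε x y (fun n => RT.var (2 * n + 1 + 1 + 1)) (RT.var 2) (RT.var 1)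
    (RT.var 0) (RT.var (2 * 0 + 1 + 1 + 1 + 1)))

theorem rf_lim (ε : Fm) (x y : ℕ) (hp : RA p) (h₁ : RT b₁) (h₂ : RT b₂) (hd : RT d)
    (hj : RT j) :
    RF (fun K _ e => Lim ε x y (p K e) (b₁ K e) (b₂ K e) (d K e) (j K e)) := by
  unfold Lim
  refine RF.ex (P := fun K _ n₀ e => InN ε x y (p K e) (b₁ K e) (b₂ K e) (d K e) n₀ ∧
    ∀ n, InN ε x y (p K e) (b₁ K e) (b₂ K e) (d K e) n → n₀ ≤ n →
      Ev (b₁ K e) (b₂ K e) (pr n (j K e))) ?_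
  refine RF.and (rf_inN ε x y hp.sh h₁.sh h₂.sh hd.sh (RT.var 0)) ?_
  refine RF.all (P := fun K _ n e => InN ε x y (p K (fun n => e (n + 1)))
      (b₁ K (fun n => e (n + 1))) (b₂ K (fun n => e (n + 1))) (d K (fun n => e (n + 1))) n →
      e 0 ≤ n → Ev (b₁ K (fun n => e (n + 1))) (b₂ K (fun n => e (n + 1)))
        (pr n (j K (fun n => e (n + 1))))) ?_
  refine RF.imp (rf_inN ε x y hp.sh.sh h₁.sh.sh h₂.sh.sh hd.sh.sh (RT.var 0)) ?_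
  exact RF.imp (RD.le (RT.var 1) (RT.var 0)).rf
    (rf_ev h₁.sh.sh h₂.sh.sh (rt_pr (RT.var 0) hj.sh.sh))

end

theorem rf_xi (ε : Fm) (x y : ℕ) : RF (fun K _ _ => Xi K ε x y) := by
  unfold Xi
  refine RF.allb (P := fun K _ p _ => ∀ (b₁ b₂ d : K), Good ε x y p b₁ b₂ d →
    Mini ε x y p b₁ b₂ d → ∃ s₁ s₂, ∀ k, InN ε x y p b₁ b₂ d k →
      (Ev s₁ s₂ k ↔ ∀ m, InN ε x y p b₁ b₂ d m → ¬ Lim ε x y p b₁ b₂ d (pr k m))) ?_
  refine RF.all (P := fun K _ b₁ e => ∀ (b₂ d : K), Good ε x y (fun n => e (2 * n)) b₁ b₂ d →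
    Mini ε x y (fun n => e (2 * n)) b₁ b₂ d → ∃ s₁ s₂, ∀ k,
      InN ε x y (fun n => e (2 * n)) b₁ b₂ d k →
      (Ev s₁ s₂ k ↔ ∀ m, InN ε x y (fun n => e (2 * n)) b₁ b₂ d m →
        ¬ Lim ε x y (fun n => e (2 * n)) b₁ b₂ d (pr k m))) ?_
  refine RF.all (P := fun K _ b₂ e => ∀ (d : K),
    Good ε x y (fun n => e (2 * n + 1)) (e 0) b₂ d →
    Mini ε x y (fun n => e (2 * n + 1)) (e 0) b₂ d → ∃ s₁ s₂, ∀ k,
      InN ε x y (fun n => e (2 * n + 1)) (e 0) b₂ d k →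
      (Ev s₁ s₂ k ↔ ∀ m, InN ε x y (fun n => e (2 * n + 1)) (e 0) b₂ d m →
        ¬ Lim ε x y (fun n => e (2 * n + 1)) (e 0) b₂ d (pr k m))) ?_
  refine RF.all (P := fun K _ d e =>
    Good ε x y (fun n => e (2 * n + 1 + 1)) (e 1) (e 0) d →
    Mini ε x y (fun n => e (2 * n + 1 + 1)) (e 1) (e 0) d → ∃ s₁ s₂, ∀ k,
      InN ε x y (fun n => e (2 * n + 1 + 1)) (e 1) (e 0) d k →
      (Ev s₁ s₂ k ↔ ∀ m, InN ε x y (fun n => e (2 * n + 1 + 1)) (e 1) (e 0) d m →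
        ¬ Lim ε x y (fun n => e (2 * n + 1 + 1)) (e 1) (e 0) d (pr k m))) ?_
  have hp : RA (fun _ _ e n => e (2 * n + 1 + 1 + 1)) := fun n => RT.var (2 * n + 1 + 1 + 1)
  refine RF.imp (rf_good ε x y hp (RT.var 2) (RT.var 1) (RT.var 0)) ?_
  refine RF.imp (rf_mini ε x y hp (RT.var 2) (RT.var 1) (RT.var 0)) ?_
  refine RF.ex (P := fun K _ s₁ e => ∃ s₂, ∀ k,
      InN ε x y (fun n => e (2 * n + 1 + 1 + 1)) (e 2) (e 1) (e 0) k →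
      (Ev s₁ s₂ k ↔ ∀ m, InN ε x y (fun n => e (2 * n + 1 + 1 + 1)) (e 2) (e 1) (e 0) m →
        ¬ Lim ε x y (fun n => e (2 * n + 1 + 1 + 1)) (e 2) (e 1) (e 0) (pr k m))) ?_
  refine RF.ex (P := fun K _ s₂ e => ∀ k,
      InN ε x y (fun n => e (2 * n + 1 + 1 + 1 + 1)) (e 3) (e 2) (e 1) k →
      (Ev (e 0) s₂ k ↔ ∀ m, InN ε x y (fun n => e (2 * n + 1 + 1 + 1 + 1)) (e 3) (e 2) (e 1) m →
        ¬ Lim ε x y (fun n => e (2 * n + 1 + 1 + 1 + 1)) (e 3) (e 2) (e 1) (pr k m))) ?_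
  refine RF.all (P := fun K _ k e =>
      InN ε x y (fun n => e (2 * n + 1 + 1 + 1 + 1 + 1)) (e 4) (e 3) (e 2) k →
      (Ev (e 1) (e 0) k ↔ ∀ m,
        InN ε x y (fun n => e (2 * n + 1 + 1 + 1 + 1 + 1)) (e 4) (e 3) (e 2) m →
        ¬ Lim ε x y (fun n => e (2 * n + 1 + 1 + 1 + 1 + 1)) (e 4) (e 3) (e 2) (pr k m))) ?_
  have hp' : RA (fun _ _ e n => e (2 * n + 1 + 1 + 1 + 1 + 1 + 1)) := fun n => RT.var _
  refine RF.imp (rf_inN ε x y hp' (RT.var 5) (RT.var 4) (RT.var 3) (RT.var 0)) ?_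
  refine RF.iff (rf_ev (RT.var 2) (RT.var 1) (RT.var 0)) ?_
  refine RF.all (P := fun K _ m e =>
        InN ε x y (fun n => e (2 * n + 1 + 1 + 1 + 1 + 1 + 1)) (e 5) (e 4) (e 3) m →
        ¬ Lim ε x y (fun n => e (2 * n + 1 + 1 + 1 + 1 + 1 + 1)) (e 5) (e 4) (e 3)
          (pr (e 0) m)) ?_
  have hp'' : RA (fun _ _ e n => e (2 * n + 1 + 1 + 1 + 1 + 1 + 1 + 1)) := fun n => RT.var _
  exact RF.imp (rf_inN ε x y hp'' (RT.var 6) (RT.var 5) (RT.var 4) (RT.var 0))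
    (rf_lim ε x y hp'' (RT.var 6) (RT.var 5) (RT.var 4) (rt_pr (RT.var 1) (RT.var 0))).not

/-- row XIF -/
theorem t_xif : XIFStmt := by
  intro ε x y _ _
  obtain ⟨φ, hφ⟩ := rf_xi ε x y
  obtain ⟨ψ, h1, h2⟩ := exists_closed φ
  refine ⟨ψ, h1, fun K _ => ?_⟩
  unfold Mod
  rw [h2]
  constructor
  · rintro ⟨e, he⟩
    exact (hφ K e).1 he
  · intro h
    exact ⟨fun _ => 0, (hφ K _).2 h⟩

end Pool.FDA
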